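import Mathlib

set_option autoImplicit false
set_option linter.unusedSectionVars false
set_option linter.unusedVariables false

namespace Pool.Agent.Work.MP_aa036a_co

open Finset

/-- a permutation `F` of `{0,…,n-1}` with inverse `G`, such that `F` and `F ∘ F` avoid 321 and
1342. -/
structure PD (n : ℕ) (F G : ℕ → ℕ) : Prop where
  F_lt : ∀ i, i < n → F i < n
  G_lt : ∀ i, i < n → G i < n
  GF : ∀ i, i < n → G (F i) = i
  FG : ∀ i, i < n → F (G i) = i
  A : ∀ i j k, i < j → j < k → k < n → F k < F j → F j < F i → False
  B : ∀ i j k l, i < j → j < k → k < l → l < n → F i < F l → F l < F j → F j < F k → False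
  A2 : ∀ i j k, i < j → j < k → k < n → F (F k) < F (F j) → F (F j) < F (F i) → False
  B2 : ∀ i j k l, i < j → j < k → k < l → l < n → F (F i) < F (F l) → F (F l) < F (F j) →
    F (F j) < F (F k) → False

variable {n : ℕ} {F G : ℕ → ℕ}

lemma PD.inj (h : PD n F G) {i j : ℕ} (hi : i < n) (hj : j < n) (e : F i = F j) : i = j := by
  rw [← h.GF i hi, e, h.GF j hj]

lemma PD.card_lt (h : PD n F G) {x : ℕ} (hx : x < n) :
    ((range n).filter (fun y => F y < F x)).card = F x := by
  have h1 : ((range n).filter (fun y => F y < F x)) = (range (F x)).image G := by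
    ext y
    simp only [mem_filter, mem_range, mem_image]
    constructor
    · rintro ⟨hy, hlt⟩
      exact ⟨F y, hlt, h.GF y hy⟩
    · rintro ⟨z, hz, rfl⟩
      have hzn : z < n := by have := h.F_lt x hx; omega
      exact ⟨h.G_lt z hzn, by rw [h.FG z hzn]; exact hz⟩
  rw [h1, card_image_of_injOn, card_range]
  intro a ha b hb hab
  simp only [coe_range, Set.mem_Iio] at ha hb
  have hx' := h.F_lt x hx
  rw [← h.FG a (by omega), ← h.FG b (by omega)]
  exact congrArg F hab

/-- monotone after the maximum -/
lemma PD.incB (h : PD n F G) {p : ℕ} (hp : p < n) (hFp : F p = n - 1) {i j : ℕ} (hi : p < i)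
    (hij : i < j) (hj : j < n) : F i < F j := by
  by_contra hcon
  have hne : F i ≠ F j := fun e => by have := h.inj (by omega) hj e; omega
  have h1 := h.F_lt i (by omega)
  have h2 : F i ≠ F p := fun e => by have := h.inj (by omega) hp e; omega
  exact h.A p i j hi hij hj (by omega) (by omega)

lemma PD.caseA (h : PD n F G) (hn : 3 ≤ n) {p : ℕ} (hp : p < n) (hFp : F p = n - 1)
    (hp0 : 0 < p) (hpn : p < n - 2) (hlast : F (n - 1) = n - 2) : False := by
  set q := G p with hq
  have hqn : q < n := h.G_lt p hp
  have hFq : F q = p := h.FG p hp
  have hqp : q ≠ p := by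
    intro e
    rw [e] at hFq
    omega
  have hy1 : F (n - 2) < n := h.F_lt _ (by omega)
  have hy2 : F (n - 2) ≠ n - 1 := by
    intro e
    have := h.inj (i := n - 2) (j := p) (by omega) hp (by omega)
    omega
  have hy3 : F (n - 2) ≠ n - 2 := by
    intro e
    have := h.inj (i := n - 2) (j := n - 1) (by omega) (by omega) (by omega)
    omega
  rcases Nat.lt_or_gt_of_ne hqp with hlt | hgt
  · refine h.A2 q p (n - 1) hlt (by omega) (by omega) ?_ ?_
    · rw [hFp, hlast]
      omega
    · rw [hFq, hFp, hlast]
      omega
  · have hqn1 : q < n - 1 := by
      have : q ≠ n - 1 := by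
        intro e
        rw [e] at hFq
        omega
      omega
    -- f (f i) > f (n-2) for i < p
    have key : ∀ i, i < p → F (n - 2) < F (F i) := by
      intro i hi
      by_contra hcon
      have hne : F (F i) ≠ F (n - 2) := by
        intro e
        have h1 := h.inj (h.F_lt i (by omega)) (by omega) e
        have h2 := h.inj (i := i) (j := n - 1) (by omega) (by omega) (by omega)
        omega
      refine h.B2 i p q (n - 1) hi hgt hqn1 (by omega) ?_ ?_ ?_
      · rw [hlast]
        omega
      · rw [hFp, hlast]
        omega
      · rw [hFp, hFq, hlast, hFp]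
        omega
    have hmap : ∀ i, i < p → F i < p := by
      intro i hi
      by_contra hcon
      have h1 : F i ≠ p := by
        intro e
        have := h.inj (i := i) (j := q) (by omega) hqn (by omega)
        omega
      have h2 : F i ≠ n - 1 := by
        intro e
        have := h.inj (i := i) (j := p) (by omega) hp (by omega)
        omega
      have h3 := h.F_lt i (by omega)
      have h4 := key i hi
      rcases Nat.lt_or_ge (F i) (n - 2) with h5 | h5
      · have := h.incB hp hFp (i := F i) (j := n - 2) (by omega) h5 (by omega)
        omega
      · have : F i = n - 2 := by omega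
        rw [this] at h4
        omega
    -- surjectivity on [0,p)
    have h0 := key 0 hp0
    have h1 := hmap (F 0) (hmap 0 hp0)
    have hy : F (n - 2) < p := by omega
    have himg : (range p).image F = range p := by
      apply eq_of_subset_of_card_le
      · intro x hx
        rw [mem_image] at hx
        obtain ⟨i, hi, rfl⟩ := hx
        rw [mem_range] at hi ⊢
        exact hmap i hi
      · rw [card_image_of_injOn]
        intro a ha b hb hab
        simp only [coe_range, Set.mem_Iio] at ha hb
        exact h.inj (by omega) (by omega) hab
    have h2 : F (n - 2) ∈ (range p).image F := by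
      rw [himg, mem_range]
      exact hy
    rw [mem_image] at h2
    obtain ⟨i, hi, e⟩ := h2
    rw [mem_range] at hi
    have := h.inj (i := i) (j := n - 2) (by omega) (by omega) e
    omega

lemma PD.caseB (h : PD n F G) (hn : 3 ≤ n) {p : ℕ} (hp : p < n - 1) (hFp : F p = n - 1)
    (hlast : F (n - 1) < n - 2) :
    ∃ a, a + 1 = p ∧ (∀ i, i < p → F (n - 1) < F i) ∧ (∀ i j, i < j → j < p → F i < F j) := by
  set c := F (n - 1) with hc
  set a := G (n - 2) with ha
  have han : a < n := h.G_lt _ (by omega)
  have hFa : F a = n - 2 := h.FG _ (by omega)
  have hap : a ≠ p := by intro e; rw [e] at hFa; omega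
  have hap : a < p := by
    by_contra hcon
    have h1 : a ≠ n - 1 := by intro e; rw [e] at hFa; omega
    have := h.incB (by omega) hFp (i := a) (j := n - 1) (by omega) (by omega) (by omega)
    omega
  have hB1 : ∀ i, i < a → c < F i := by
    intro i hi
    by_contra hcon
    have hne : F i ≠ F (n - 1) := fun e => by
      have := h.inj (i := i) (j := n - 1) (by omega) (by omega) e; omega
    exact h.B i a p (n - 1) hi hap (by omega) (by omega) (by omega) (by omega) (by omega)
  have hB1' : ∀ i, i ≤ a → c < F i := by
    intro i hi
    rcases Nat.lt_or_ge i a with h1 | h1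
    · exact hB1 i h1
    · have : i = a := by omega
      rw [this]
      omega
  have hltn : ∀ x, x < n → x ≠ p → x ≠ a → F x < n - 2 := by
    intro x hx hxp hxa
    have h1 := h.F_lt x hx
    have h2 : F x ≠ n - 1 := fun e => hxp (h.inj hx (by omega) (by omega))
    have h3 : F x ≠ n - 2 := fun e => hxa (h.inj hx (by omega) (by omega))
    omega
  have hB2 : ∀ y j, a < y → y < p → p < j → j < n → F y < F j := by
    intro y j h1 h2 h3 h4
    by_contra hcon
    have hne : F y ≠ F j := fun e => by have := h.inj (by omega) h4 e; omega
    have := hltn y (by omega) (by omega) (by omega)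
    exact h.A a y j h1 (by omega) h4 (by omega) (by omega)
  have hB3 : ∀ i j, i < j → j ≤ a → F i < F j := by
    intro i j hij hj
    by_contra hcon
    have hne : F i ≠ F j := fun e => by have := h.inj (by omega) (by omega) e; omega
    have := hB1' j hj
    exact h.A i j (n - 1) hij (by omega) (by omega) (by omega) (by omega)
  have hB4 : ∀ i j, a < i → i < j → j < p → F i < F j := by
    intro i j hai hij hj
    by_contra hcon
    have hne : F i ≠ F j := fun e => by have := h.inj (by omega) (by omega) e; omega
    have := hltn i (by omega) (by omega) (by omega)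
    exact h.A a i j hai hij (by omega) (by omega) (by omega)
  have hlast_lt : ∀ y, a < y → y < p → F y < c := fun y h1 h2 =>
    hB2 y (n - 1) h1 h2 (by omega) (by omega)
  -- values on (a,p)
  have hsmall : ∀ x, a < x → x < p → F x ≤ x - a - 1 := by
    intro x hx1 hx2
    rw [← h.card_lt (x := x) (by omega)]
    have hsub : (range n).filter (fun y => F y < F x) ⊆ Ioo a x := by
      intro y hy
      rw [mem_filter, mem_range] at hy
      rw [mem_Ioo]
      have hcx := hlast_lt x hx1 hx2
      refine ⟨?_, ?_⟩
      · by_contra hcon
        have := hB1' y (by omega)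
        omega
      · by_contra hcon
        rcases Nat.lt_trichotomy y p with h1 | h1 | h1
        · rcases Nat.lt_or_ge x y with h2 | h2
          · have := hB4 x y hx1 h2 h1
            omega
          · have : x = y := by omega
            rw [this] at hy
            omega
        · rw [h1] at hy
          have := h.F_lt x (by omega)
          omega
        · have := hB2 x y hx1 hx2 h1 hy.1
          omega
    have := card_le_card hsub
    rw [Nat.card_Ioo] at this
    exact this
  by_cases hu : a + 1 = p
  · refine ⟨a, hu, ?_, ?_⟩
    · intro i hi
      exact hB1' i (by omega)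
    · intro i j hij hj
      exact hB3 i j hij (by omega)
  · exfalso
    have hFa1 : F (a + 1) = 0 := by
      have := hsmall (a + 1) (by omega) (by omega)
      omega
    have hF0 : c < F 0 := hB1' 0 (by omega)
    have hF0' : F 0 < n - 1 := by
      have h1 := h.F_lt 0 (by omega)
      have h2 : F 0 ≠ F p := fun e => by
        have := h.inj (i := 0) (j := p) (by omega) (by omega) e; omega
      omega
    set q := G p with hq
    have hqn : q < n := h.G_lt p (by omega)
    have hFq : F q = p := h.FG p (by omega)
    have hqp : q ≠ p := by intro e; rw [e] at hFq; omega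
    rcases Nat.lt_or_gt_of_ne hqp with hlt | hgt
    · have hqa : q ≤ a := by
        by_contra hcon
        have := hsmall q (by omega) hlt
        omega
      refine h.A2 q (a + 1) p (by omega) (by omega) (by omega) ?_ ?_
      · rw [hFp, hFa1]
        omega
      · rw [hFa1, hFq, hFp]
        omega
    · set j := G (p - 1) with hj
      have hjn : j < n := h.G_lt _ (by omega)
      have hFj : F j = p - 1 := h.FG _ (by omega)
      have hqc : p ≤ c := by
        rcases Nat.lt_or_ge q (n - 1) with h1 | h1
        · have := h.incB (by omega) hFp hgt h1 (by omega)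
          omega
        · have : q = n - 1 := by omega
          rw [this] at hFq
          omega
      have hjp : p < j := by
        by_contra hcon
        have h1 : j ≠ p := by intro e; rw [e] at hFj; omega
        rcases Nat.lt_or_ge a j with h2 | h2
        · have := hsmall j h2 (by omega)
          omega
        · have := hB1' j h2
          omega
      refine h.A2 (a + 1) p j (by omega) hjp hjn ?_ ?_
      · rw [hFj, hFp]
        have := hlast_lt (p - 1) (by omega) (by omega)
        omega
      · rw [hFa1, hFp]
        omega

/-- explicit formula for a rotation -/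
lemma PD.rot (h : PD n F G) (hn : 3 ≤ n) {p : ℕ} (hp : p < n - 1) (hFp : F p = n - 1)
    (h1 : ∀ i, i < p → F (n - 1) < F i) (h2 : ∀ i j, i < j → j < p → F i < F j) :
    ∀ i, i < n → F i = (i + (n - 1 - p)) % n := by
  have hB := fun i j (hi : p < i) (hij : i < j) (hj : j < n) =>
    h.incB (by omega) hFp hi hij hj
  have hBc : ∀ j, p < j → j < n → F j ≤ F (n - 1) := by
    intro j hj1 hj2
    rcases Nat.lt_or_ge j (n - 1) with h3 | h3
    · exact (hB j (n - 1) hj1 h3 (by omega)).le
    · have : j = n - 1 := by omega
      rw [this]
  intro x hx
  rcases Nat.lt_trichotomy x p with hxp | hxp | hxp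
  · have hset : (range n).filter (fun y => F y < F x) = range x ∪ Ioo p n := by
      ext y
      simp only [mem_filter, mem_range, mem_union, mem_Ioo]
      constructor
      · rintro ⟨hy, hlt⟩
        rcases Nat.lt_trichotomy y p with h3 | h3 | h3
        · left
          by_contra hcon
          rcases Nat.lt_or_ge x y with h4 | h4
          · have := h2 x y h4 h3
            omega
          · have : x = y := by omega
            rw [this] at hlt
            omega
        · rw [h3, hFp] at hlt
          have := h.F_lt x hx
          omega
        · right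
          exact ⟨h3, hy⟩
      · rintro (hy | ⟨hy1, hy2⟩)
        · exact ⟨by omega, h2 y x hy hxp⟩
        · refine ⟨hy2, ?_⟩
          have := hBc y hy1 hy2
          have := h1 x hxp
          omega
    have hcard := h.card_lt hx
    rw [hset, card_union_of_disjoint, card_range, Nat.card_Ioo] at hcard
    · rw [Nat.mod_eq_of_lt (by omega)]
      omega
    · rw [disjoint_left]
      intro y hy
      rw [mem_range] at hy
      rw [mem_Ioo]
      omega
  · rw [hxp, hFp, Nat.mod_eq_of_lt (by omega)]
    omega
  · have hset : (range n).filter (fun y => F y < F x) = Ioo p x := by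
      ext y
      simp only [mem_filter, mem_range, mem_Ioo]
      constructor
      · rintro ⟨hy, hlt⟩
        rcases Nat.lt_trichotomy y p with h3 | h3 | h3
        · have := h1 y h3
          have := hBc x hxp hx
          omega
        · rw [h3, hFp] at hlt
          have := h.F_lt x hx
          omega
        · refine ⟨h3, ?_⟩
          by_contra hcon
          rcases Nat.lt_or_ge x y with h4 | h4
          · have := hB x y hxp h4 hy
            omega
          · have : x = y := by omega
            rw [this] at hlt
            omega
      · rintro ⟨hy1, hy2⟩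
        exact ⟨by omega, hB y x hy1 hy2 hx⟩
    have hcard := h.card_lt hx
    rw [hset, Nat.card_Ioo] at hcard
    have h3 : x + (n - 1 - p) = (x - p - 1) + n := by omega
    rw [h3, Nat.add_mod_right, Nat.mod_eq_of_lt (by omega)]
    omega

theorem PD.main (h : PD n F G) (hn : 3 ≤ n) :
    F (n - 1) = n - 1 ∨ (F (n - 2) = n - 1 ∧ F (n - 1) = n - 2) ∨
      ∃ k, 1 ≤ k ∧ k < n ∧ ∀ i, i < n → F i = (i + k) % n := by
  set p := G (n - 1) with hp
  have hpn : p < n := h.G_lt _ (by omega)
  have hFp : F p = n - 1 := h.FG _ (by omega)
  by_cases hp1 : p = n - 1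
  · left
    have h1 := hFp
    rw [hp1] at h1
    exact h1
  · right
    have hln := h.F_lt (n - 1) (by omega)
    have hl1 : F (n - 1) ≠ n - 1 := fun e => by
      have := h.inj (i := n - 1) (j := p) (by omega) hpn (by omega); omega
    by_cases hl2 : F (n - 1) = n - 2
    · by_cases hp2 : p = n - 2
      · left
        exact ⟨by rw [← hp2]; exact hFp, hl2⟩
      · by_cases hp0 : p = 0
        · right
          refine ⟨n - 1, by omega, by omega, ?_⟩
          have := h.rot hn (p := p) (by omega) hFp (by intro i hi; omega)
            (by intro i j hij hj; omega)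
          rw [hp0] at this
          simpa using this
        · exact (h.caseA hn hpn hFp (by omega) (by omega) hl2).elim
    · right
      obtain ⟨a, ha, h1, h2⟩ := h.caseB hn (p := p) (by omega) hFp (by omega)
      exact ⟨n - 1 - p, by omega, by omega, h.rot hn (by omega) hFp h1 h2⟩

end Pool.Agent.Work.MP_aa036a_co
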